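import Pool.Agent.H444Z.BF.Final

set_option autoImplicit false

namespace Pool.Agent.H444Z.PP

open MeasureTheory ProbabilityTheory Set Filter Topology Pool.Agent.H444Z.BF
open scoped ENNReal

variable {A : Type}

def Cyl : ℤ → List A → Set (ℤ → A)
  | _, [] => univ
  | i, a :: w => {ω | ω i = a} ∩ Cyl (i + 1) w

theorem Cyl_append (u v : List A) : ∀ i : ℤ,
    Cyl i (u ++ v) = Cyl i u ∩ Cyl (i + u.length) v := by
  induction u with
  | nil => intro i; simp [Cyl]
  | cons a u ih =>
    intro i
    simp only [List.cons_append, Cyl, ih, List.length_cons, inter_assoc]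
    congr 3
    push_cast
    ring

theorem mem_Cyl (w : List A) (ω : ℤ → A) : ∀ i : ℤ,
    ω ∈ Cyl i w ↔ ∀ (j : ℕ) (h : j < w.length), ω (i + j) = w[j] := by
  induction w with
  | nil => intro i; simp [Cyl]
  | cons a w ih =>
    intro i
    simp only [Cyl, mem_inter_iff, mem_ofPred_eq, ih]
    constructor
    · rintro ⟨h1, h2⟩ j hj
      cases j with
      | zero => simpa using h1
      | succ j =>
        have := h2 j (by simpa using hj)
        simp only [List.getElem_cons_succ]
        rw [← this]
        congr 1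
        push_cast
        ring
    · intro h
      have h0 := h 0 (Nat.succ_pos _)
      rw [Nat.cast_zero, add_zero] at h0
      refine ⟨h0, fun j hj => ?_⟩
      have := h (j + 1) (by simpa using hj)
      simp only [List.getElem_cons_succ] at this
      rw [← this]
      congr 1
      push_cast
      ring

theorem Cyl_ofFn (n : ℕ) (i : ℤ) (w : Fin n → A) :
    Cyl i (List.ofFn w) = {ω | ∀ j : Fin n, ω (i + (j : ℕ)) = w j} := by
  ext ω
  rw [mem_Cyl]
  simp only [List.length_ofFn, List.getElem_ofFn, mem_ofPred_eq]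
  exact ⟨fun h j => h j j.2, fun h j hj => h ⟨j, hj⟩⟩

def shift (t : ℤ) (ω : ℤ → A) : ℤ → A := fun x => ω (x + t)

theorem shift_Cyl (t : ℤ) (w : List A) : ∀ i : ℤ, shift t ⁻¹' Cyl i w = Cyl (i + t) w := by
  induction w with
  | nil => intro i; simp [Cyl]
  | cons a w ih =>
    intro i
    simp only [Cyl, preimage_inter, ih]
    congr 2
    ring

theorem dep_Cyl (w : List A) (i : ℤ) :
    DepOn (Cyl i w) ((Finset.Ico i (i + w.length) : Finset ℤ) : Set ℤ) := by
  intro ω ω' h hω
  rw [mem_Cyl] at hω ⊢
  intro j hj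
  rw [← h _ (by simp; omega)]
  exact hω j hj

def win : ℤ → ℕ → (ℤ → A) → List A
  | _, 0, _ => []
  | i, n + 1, ω => ω i :: win (i + 1) n ω

theorem win_length (ω : ℤ → A) (n : ℕ) : ∀ i, (win i n ω).length = n := by
  induction n with
  | zero => intro i; rfl
  | succ n ih => intro i; simp [win, ih]

theorem mem_Cyl_win (ω ω' : ℤ → A) (n : ℕ) : ∀ i : ℤ,
    ω' ∈ Cyl i (win i n ω) ↔ ∀ x : ℤ, i ≤ x → x < i + n → ω' x = ω x := by
  induction n with
  | zero => intro i; simp only [win, Cyl, mem_univ, true_iff]; intro x h1 h2; omega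
  | succ n ih =>
    intro i
    simp only [win, Cyl, mem_inter_iff, mem_ofPred_eq, ih]
    constructor
    · rintro ⟨h1, h2⟩ x h3 h4
      by_cases hx : x = i
      · rw [hx, h1]
      · exact h2 x (by omega) (by push_cast at h4; omega)
    · intro h
      exact ⟨h i le_rfl (by push_cast; omega), fun x h3 h4 => h x (by omega) (by push_cast; omega)⟩

theorem win_add (ω : ℤ → A) (n m : ℕ) : ∀ i : ℤ,
    win i (n + m) ω = win i n ω ++ win (i + n) m ω := by
  induction n with
  | zero => intro i; simp [win]
  | succ n ih =>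
    intro i
    rw [show n + 1 + m = (n + m) + 1 by ring, win, ih, win]
    simp only [List.cons_append]
    congr 3
    push_cast
    ring

theorem win_map {A' : Type} (f : A → A') (ω : ℤ → A) (n : ℕ) : ∀ i : ℤ,
    (win i n ω).map f = win i n (fun x => f (ω x)) := by
  induction n with
  | zero => intro i; rfl
  | succ n ih => intro i; simp [win, ih]

theorem mem_win (ω : ℤ → A) (a : A) (n : ℕ) : ∀ i : ℤ, a ∈ win i n ω →
    ∃ x : ℤ, i ≤ x ∧ x < i + n ∧ ω x = a := by
  induction n with
  | zero => intro i h; simp [win] at h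
  | succ n ih =>
    intro i h
    rw [win, List.mem_cons] at h
    rcases h with h | h
    · exact ⟨i, le_rfl, by push_cast; omega, h.symm⟩
    · obtain ⟨x, h1, h2, h3⟩ := ih _ h
      exact ⟨x, by omega, by push_cast; omega, h3⟩

section sums
variable [Fintype A] {M : Type} [AddCommMonoid M]

def sumN : ℕ → (List A → M) → M
  | 0, F => F []
  | n + 1, F => ∑ a : A, sumN n (fun z => F (a :: z))

theorem sumN_congr (n : ℕ) : ∀ F G : List A → M, (∀ z, z.length = n → F z = G z) →
    sumN n F = sumN n G := by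
  induction n with
  | zero => intro F G h; exact h [] rfl
  | succ n ih =>
    intro F G h
    exact Finset.sum_congr rfl fun a _ => ih _ _ fun z hz => h _ (by simp [hz])

theorem sumN_add (n m : ℕ) : ∀ F : List A → M,
    sumN (n + m) F = sumN n (fun x => sumN m (fun y => F (x ++ y))) := by
  induction n with
  | zero => intro F; simp [sumN]
  | succ n ih =>
    intro F
    rw [show n + 1 + m = (n + m) + 1 by ring, sumN, sumN]
    exact Finset.sum_congr rfl fun a _ => ih _

theorem sumN_sum {β : Type} (s : Finset β) (n : ℕ) : ∀ F : β → List A → M,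
    sumN n (fun z => ∑ b ∈ s, F b z) = ∑ b ∈ s, sumN n (F b) := by
  induction n with
  | zero => intro F; rfl
  | succ n ih =>
    intro F
    simp only [sumN]
    rw [Finset.sum_comm]
    exact Finset.sum_congr rfl fun a _ => ih _

theorem sumN_zero (n : ℕ) : sumN n (fun _ : List A => (0 : M)) = 0 := by
  induction n with
  | zero => rfl
  | succ n ih => simp [sumN, ih]

theorem sumN_mul (c : ℝ≥0∞) (n : ℕ) : ∀ F : List A → ℝ≥0∞,
    sumN n (fun z => c * F z) = c * sumN n F := by
  induction n with
  | zero => intro F; rfl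
  | succ n ih =>
    intro F
    simp only [sumN, Finset.mul_sum]
    exact Finset.sum_congr rfl fun a _ => ih _

theorem sumN_single [DecidableEq A] (u : List A) : ∀ G : List A → M,
    sumN u.length (fun z => if z = u then G z else 0) = G u := by
  induction u with
  | nil => intro G; simp [sumN]
  | cons a u ih =>
    intro G
    simp only [List.length_cons, sumN, List.cons.injEq]
    rw [Finset.sum_eq_single a]
    · simp only [true_and]
      exact ih (fun z => G (a :: z))
    · intro b _ hb
      simp only [hb, false_and, if_false, sumN_zero]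
    · simp

theorem sumN_apply {Ω : Type} [MeasurableSpace Ω] (s : Set Ω) (n : ℕ) :
    ∀ F : List A → Measure Ω, (sumN n F) s = sumN n (fun z => F z s) := by
  induction n with
  | zero => intro F; rfl
  | succ n ih =>
    intro F
    simp only [sumN, Measure.finset_sum_apply, ih]

theorem marg_r (p : List A → M) (hr : ∀ w, ∑ a, p (w ++ [a]) = p w) (n : ℕ) : ∀ w,
    sumN n (fun y => p (w ++ y)) = p w := by
  induction n with
  | zero => intro w; simp [sumN]
  | succ n ih =>
    intro w
    rw [sumN, ← hr w]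
    refine Finset.sum_congr rfl fun a _ => ?_
    rw [← ih (w ++ [a])]
    simp

theorem marg_l (p : List A → M) (hl : ∀ w, ∑ a, p (a :: w) = p w) (w : List A) (n : ℕ) :
    sumN n (fun x => p (x ++ w)) = p w := by
  induction n with
  | zero => simp [sumN]
  | succ n ih =>
    rw [sumN, ← sumN_sum]
    simp only [List.cons_append, hl, ih]

end sums

section meas
variable [Fintype A] [MeasurableSpace A] [MeasurableSingletonClass A]

theorem dep_meas {S : Set (ℤ → A)} {s : Finset ℤ} (h : DepOn S (s : Set ℤ)) :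
    MeasurableSet S := by
  have e : S = s.restrict ⁻¹' (s.restrict '' S) := by
    ext ω
    constructor
    · intro hω; exact ⟨ω, hω, rfl⟩
    · rintro ⟨ω', h1, h2⟩
      exact h ω' ω (fun i hi => congrFun h2 ⟨i, hi⟩) h1
  rw [e]
  exact (Finset.measurable_restrict s) (Set.toFinite _).measurableSet

theorem meas_Cyl (i : ℤ) (w : List A) : MeasurableSet (Cyl i w) := dep_meas (dep_Cyl w i)

theorem meas_shift (t : ℤ) : Measurable (shift t : (ℤ → A) → (ℤ → A)) :=
  measurable_pi_lambda _ fun x => measurable_pi_apply _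

theorem kol [Inhabited A] (p : List A → ℝ≥0∞) (h0 : p [] = 1)
    (hl : ∀ w, ∑ a, p (a :: w) = p w) (hr : ∀ w, ∑ a, p (w ++ [a]) = p w) :
    ∃ μ : Measure (ℤ → A), IsProbabilityMeasure μ ∧ ∀ i w, μ (Cyl i w) = p w := by
  classical
  letI : TopologicalSpace A := ⊥
  haveI : DiscreteTopology A := ⟨rfl⟩
  haveI : BorelSpace A := ⟨by
    rw [borel_eq_top_of_discrete]
    exact top_le_iff.mp fun s _ => (Set.toFinite s).measurableSet⟩
  let ext : ℤ → List A → (ℤ → A) := fun i w x => w.getD (x - i).toNat default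
  let m : ℕ → Measure (ℤ → A) := fun n =>
    sumN (2 * n) (fun w => p w • Measure.dirac (ext (-(n : ℤ)) w))
  have hm : ∀ (n : ℕ) (i : ℤ) (u : List A), -(n : ℤ) ≤ i → i + u.length ≤ n →
      m n (Cyl i u) = p u := by
    intro n i u h1 h2
    obtain ⟨a, ha⟩ : ∃ a : ℕ, i = -(n : ℤ) + a := ⟨(i + n).toNat, by omega⟩
    obtain ⟨b, hb⟩ : ∃ b : ℕ, 2 * n = a + (u.length + b) := ⟨2 * n - a - u.length, by omega⟩
    simp only [m]
    rw [sumN_apply, hb, sumN_add, ← marg_l p hl u a]
    apply sumN_congr
    intro x hx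
    rw [sumN_add, ← sumN_single u (fun z => p (x ++ z))]
    apply sumN_congr
    intro z hz
    have key : ∀ y : List A, ext (-(n : ℤ)) (x ++ (z ++ y)) ∈ Cyl i u ↔ z = u := by
      intro y
      rw [mem_Cyl]
      have e : ∀ (j : ℕ) (hj : j < z.length), ext (-(n : ℤ)) (x ++ (z ++ y)) (i + j) = z[j] := by
        intro j hj
        simp only [ext]
        have : (i + j - -(n : ℤ)).toNat = x.length + j := by omega
        rw [this, List.getD_eq_getElem?_getD, List.getElem?_append_right (by omega),
          Nat.add_sub_cancel_left, List.getElem?_append_left hj, List.getElem?_eq_getElem hj]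
        rfl
      constructor
      · intro h
        refine List.ext_getElem hz fun j h1 h2 => ?_
        rw [← e j h1, h j h2]
      · rintro rfl j hj
        exact e j hj
    simp only [Measure.smul_apply, Measure.dirac_apply' _ (meas_Cyl i u), smul_eq_mul,
      Set.indicator, key]
    by_cases hzu : z = u
    · simp only [hzu, if_true, Pi.one_apply, mul_one]
      simp only [← List.append_assoc]
      exact marg_r p hr b _
    · simp only [hzu, if_false, mul_zero, sumN_zero]
  have hp : ∀ n, IsProbabilityMeasure (m n) := fun n => ⟨by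
    have := hm n 0 [] (by omega) (by simp)
    rwa [h0] at this⟩
  let ms : ℕ → ProbabilityMeasure (ℤ → A) := fun n => ⟨m n, hp n⟩
  let U : Ultrafilter ℕ := Ultrafilter.of atTop
  have hU : (U : Filter ℕ) ≤ atTop := Ultrafilter.of_le _
  obtain ⟨μ, -, hμ⟩ := isCompact_univ.ultrafilter_le_nhds (U.map ms) (by simp)
  have hlim : Tendsto ms U (𝓝 μ) := hμ
  refine ⟨μ, inferInstance, fun i u => ?_⟩
  have hc : ∀ (w : List A) (i : ℤ), IsClopen (Cyl i w) := by
    intro w
    induction w with
    | nil => intro i; exact isClopen_univ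
    | cons a w ih =>
      intro i
      exact ((isClopen_discrete {a}).preimage (continuous_apply i)).inter (ih _)
  have h1 := ProbabilityMeasure.tendsto_measure_of_null_frontier_of_tendsto' hlim
    (E := Cyl i u) (by simp [hc u i])
  have h2 : Tendsto (fun n => (ms n : Measure (ℤ → A)) (Cyl i u)) U (𝓝 (p u)) := by
    refine tendsto_const_nhds.congr' (hU ?_)
    filter_upwards [eventually_ge_atTop (i.natAbs + u.length)] with n hn
    exact (hm n i u (by omega) (by omega)).symm
  exact tendsto_nhds_unique h1 h2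

def Stat (μ : Measure (ℤ → A)) : Prop := ∀ t : ℤ, MeasurePreserving (shift t) μ μ

theorem stat_of_cyl (μ : Measure (ℤ → A)) [IsProbabilityMeasure μ]
    (h : ∀ i j w, μ (Cyl i w) = μ (Cyl j w)) : Stat μ := by
  intro t
  refine ⟨meas_shift t, ?_⟩
  have := Measure.isProbabilityMeasure_map (μ := μ) (meas_shift (A := A) t).aemeasurable
  apply ext_windows
  intro i n w
  rw [← Cyl_ofFn, Measure.map_apply (meas_shift t) (meas_Cyl _ _), shift_Cyl]
  exact h _ _ _

theorem Stat.cyl {μ : Measure (ℤ → A)} (h : Stat μ) (i : ℤ) (w : List A) :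
    μ (Cyl i w) = μ (Cyl 0 w) := by
  rw [← (h i).measure_preimage (meas_Cyl 0 w).nullMeasurableSet, shift_Cyl, zero_add]

def Dep (μ : Measure (ℤ → A)) (K : ℕ) : Prop :=
  ∀ (j : ℤ) (s t : Finset ℤ) (S T : Set (ℤ → A)), (∀ x ∈ s, x < j) → (∀ x ∈ t, j + K ≤ x) →
    DepOn S (s : Set ℤ) → DepOn T (t : Set ℤ) → μ (S ∩ T) = μ S * μ T

theorem dep_of_cyl (μ : Measure (ℤ → A)) [IsProbabilityMeasure μ] (K : ℕ)
    (h : ∀ (i : ℤ) (u v : List A), μ (Cyl i u ∩ Cyl (i + u.length + K) v) =
      μ (Cyl i u) * μ (Cyl (i + u.length + K) v)) : Dep μ K := by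
  intro j s t S T hs ht dS dT
  obtain ⟨a, ha⟩ := s.bddBelow
  obtain ⟨b, hb⟩ := t.bddAbove
  let n : ℕ := (j - a).toNat
  let n' : ℕ := (b + 1 - (j + K)).toNat
  let X : (ℤ → A) → (Fin n → A) := fun ω k => ω (j - n + (k : ℕ))
  let Y : (ℤ → A) → (Fin n' → A) := fun ω k => ω (j + K + (k : ℕ))
  have mX : Measurable X := measurable_pi_lambda _ fun k => measurable_pi_apply _
  have mY : Measurable Y := measurable_pi_lambda _ fun k => measurable_pi_apply _
  have eX : ∀ u, X ⁻¹' {u} = Cyl (j - n) (List.ofFn u) := by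
    intro u; rw [Cyl_ofFn]; ext ω; simp [X, funext_iff]
  have eY : ∀ u, Y ⁻¹' {u} = Cyl (j + K) (List.ofFn u) := by
    intro u; rw [Cyl_ofFn]; ext ω; simp [Y, funext_iff]
  have hI : IndepFun X Y μ := by
    rw [indepFun_iff_map_prod_eq_prod_map_map mX.aemeasurable mY.aemeasurable]
    refine Measure.ext_of_singleton fun ⟨u, v⟩ => ?_
    rw [Measure.map_apply (mX.prodMk mY) (measurableSet_singleton _), ← singleton_prod_singleton,
      Measure.prod_prod, Measure.map_apply mX (measurableSet_singleton _),
      Measure.map_apply mY (measurableSet_singleton _), mk_preimage_prod, eX, eY]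
    have := h (j - n) (List.ofFn u) (List.ofFn v)
    simp only [List.length_ofFn, sub_add_cancel] at this
    exact this
  have eS : S = X ⁻¹' (X '' S) := by
    ext ω
    refine ⟨fun hω => ⟨ω, hω, rfl⟩, ?_⟩
    rintro ⟨ω', h1, h2⟩
    refine dS ω' ω (fun x hx => ?_) h1
    have h3 := hs x hx
    have h4 : a ≤ x := ha hx
    have := congrFun h2 ⟨(x - (j - n)).toNat, by simp only [n]; omega⟩
    simp only [X] at this
    rwa [show j - n + ((x - (j - n)).toNat : ℕ) = x by simp only [n]; omega] at this
  have eT : T = Y ⁻¹' (Y '' T) := by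
    ext ω
    refine ⟨fun hω => ⟨ω, hω, rfl⟩, ?_⟩
    rintro ⟨ω', h1, h2⟩
    refine dT ω' ω (fun x hx => ?_) h1
    have h3 := ht x hx
    have h4 : x ≤ b := hb hx
    have := congrFun h2 ⟨(x - (j + K)).toNat, by simp only [n']; omega⟩
    simp only [Y] at this
    rwa [show j + K + ((x - (j + K)).toNat : ℕ) = x by omega] at this
  rw [eS, eT]
  exact hI.measure_inter_preimage_eq_mul _ _ (Set.toFinite _).measurableSet
    (Set.toFinite _).measurableSet

theorem sum_mid (μ : Measure (ℤ → A)) (S : Set (ℤ → A)) (hS : MeasurableSet S) (i : ℤ) :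
    ∑ a : A, μ ({ω | ω i = a} ∩ S) = μ S := by
  have hm : ∀ a : A, MeasurableSet {ω : ℤ → A | ω i = a} := fun a =>
    (show Measurable (fun ω : ℤ → A => ω i) from measurable_pi_apply i) (measurableSet_singleton a)
  rw [← measure_biUnion_finset]
  · congr 1
    ext ω
    simp
  · intro a _ b _ hab
    simp only [Function.onFun]
    rw [Set.disjoint_left]
    rintro ω ⟨h1, _⟩ ⟨h2, _⟩
    exact hab (Eq.trans (Eq.symm h1) h2)
  · intro a _
    exact (hm a).inter hS

theorem gap_sum (μ : Measure (ℤ → A)) (i : ℤ) (v : List A) (g : ℕ) : ∀ u : List A,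
    μ (Cyl i u ∩ Cyl (i + u.length + g) v) = sumN g (fun z => μ (Cyl i (u ++ z ++ v))) := by
  induction g with
  | zero => intro u; simp [sumN, Cyl_append]
  | succ g ih =>
    intro u
    rw [sumN, ← sum_mid μ _ ((meas_Cyl _ _).inter (meas_Cyl _ _)) (i + u.length)]
    refine Finset.sum_congr rfl fun a _ => ?_
    have := ih (u ++ [a])
    simp only [List.append_assoc, List.singleton_append, List.length_append,
      List.length_singleton] at this
    simp only [List.append_assoc, List.cons_append]
    simp only [List.cons_append] at this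
    rw [← this, Cyl_append]
    congr 1
    have e : i + ((u.length + 1 : ℕ) : ℤ) + g = i + u.length + ((g + 1 : ℕ) : ℤ) := by
      push_cast; ring
    rw [e]
    ext ω
    simp only [Cyl, mem_inter_iff, mem_ofPred_eq, mem_univ, and_true]
    tauto

theorem ae_cyl (μ : Measure (ℤ → A)) :
    ∀ᵐ ω ∂μ, ∀ (i : ℤ) (u : List A), ω ∈ Cyl i u → μ (Cyl i u) ≠ 0 := by
  rw [ae_all_iff]
  intro i
  rw [ae_all_iff]
  intro u
  by_cases h : μ (Cyl i u) = 0
  · filter_upwards [measure_eq_zero_iff_ae_notMem.mp h] with ω h1 h2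
    exact absurd h2 h1
  · exact Eventually.of_forall fun _ _ => h

end meas

end Pool.Agent.H444Z.PP
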