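import Pool.Agent.H444Z.PP.Step

set_option autoImplicit false
set_option maxHeartbeats 400000

namespace Pool.Agent.H444Z.PP

open MeasureTheory ProbabilityTheory Set Filter Topology Pool.Agent.H444Z.BF
open scoped ENNReal

def GoodC (ω : ℤ → Bool × ℝ) : Prop :=
  (∀ j : ℤ, (ω j).2 ∈ Icc (j : ℝ) (j + 1)) ∧
  (∀ j j' : ℤ, j = j' ∨ (ω j).1 = false ∨ (ω j').1 = false ∨ 1 ≤ |(ω j).2 - (ω j').2|) ∧
  (∀ t : ℤ, ∃ k : Fin 4, (ω (t + (k : ℕ))).1 = true)

theorem closed_b (j : ℤ) (b : Bool) : IsClopen {ω : ℤ → Bool × ℝ | (ω j).1 = b} :=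
  (isClopen_discrete {b}).preimage (continuous_fst.comp (continuous_apply j))

theorem compact_GoodC : IsCompact {ω | GoodC ω} := by
  have h1 : IsCompact (Set.pi univ (fun j : ℤ => (univ : Set Bool) ×ˢ Icc (j : ℝ) (j + 1))) :=
    isCompact_univ_pi fun j => isCompact_univ.prod isCompact_Icc
  refine h1.of_isClosed_subset ?_ (fun ω hω j _ => ⟨trivial, hω.1 j⟩)
  unfold GoodC
  simp only [ofPred_and, ofPred_forall, ofPred_or, ofPred_exists]
  refine IsClosed.inter (isClosed_iInter fun j => ?_) (IsClosed.inter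
    (isClosed_iInter fun j => isClosed_iInter fun j' => ?_) (isClosed_iInter fun t => ?_))
  · exact isClosed_Icc.preimage (continuous_snd.comp (continuous_apply j))
  · refine IsClosed.union isClosed_const (IsClosed.union (closed_b j false).isClosed
      (IsClosed.union (closed_b j' false).isClosed (isClosed_le continuous_const ?_)))
    fun_prop
  · exact isClosed_iUnion_of_finite fun k => (closed_b _ true).isClosed

abbrev Om : Type := {ω : ℤ → Bool × ℝ // GoodC ω}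

instance : CompactSpace Om := isCompact_iff_compactSpace.mp compact_GoodC

instance : TopologicalSpace.PseudoMetrizableSpace Om :=
  Topology.IsInducing.subtypeVal.pseudoMetrizableSpace

instance : HasOuterApproxClosed Om := inferInstance

theorem cont_b (j : ℤ) : Continuous (fun ω : Om => (ω.1 j).1) :=
  continuous_fst.comp ((continuous_apply j).comp continuous_subtype_val)

theorem cont_z (j : ℤ) : Continuous (fun ω : Om => (ω.1 j).2) :=
  continuous_snd.comp ((continuous_apply j).comp continuous_subtype_val)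

def X (ω : Om) : Set ℝ := {s | ∃ j : ℤ, (ω.1 j).1 = true ∧ (ω.1 j).2 = s}

open Classical in
noncomputable def fil (ω : Om) (u v : ℝ) : Finset ℤ :=
  (Finset.Icc (⌊u⌋ - 1) ⌈v⌉).filter
    (fun j => (ω.1 j).1 = true ∧ u ≤ (ω.1 j).2 ∧ (ω.1 j).2 ≤ v)

theorem X_inter (ω : Om) (u v : ℝ) :
    X ω ∩ Icc u v = (fun j => (ω.1 j).2) '' (fil ω u v : Set ℤ) := by
  ext s
  simp only [X, fil, mem_inter_iff, mem_ofPred_eq, mem_Icc, mem_image, Finset.coe_filter,
    Finset.mem_Icc]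
  constructor
  · rintro ⟨⟨j, h1, rfl⟩, h2, h3⟩
    obtain ⟨h4, h5⟩ := ω.2.1 j
    refine ⟨j, ⟨⟨?_, ?_⟩, h1, h2, h3⟩, rfl⟩
    · have : (⌊u⌋ : ℝ) ≤ j + 1 := (Int.floor_le u).trans (h2.trans h5)
      have : ⌊u⌋ ≤ j + 1 := by exact_mod_cast this
      omega
    · have : (j : ℝ) ≤ ⌈v⌉ := (h4.trans h3).trans (Int.le_ceil v)
      exact_mod_cast this
  · rintro ⟨j, ⟨_, h1, h2, h3⟩, rfl⟩
    exact ⟨⟨j, h1, rfl⟩, h2, h3⟩

theorem X_fin (ω : Om) (u v : ℝ) : (X ω ∩ Icc u v).Finite := by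
  rw [X_inter]
  exact (Finset.finite_toSet _).image _

theorem cnt_eq (ω : Om) (u v : ℝ) : (X ω ∩ Icc u v).ncard = (fil ω u v).card := by
  rw [X_inter, Set.ncard_image_of_injOn, Set.ncard_coe_finset]
  intro j hj j' hj' h
  simp only [fil, Finset.coe_filter, mem_ofPred_eq] at hj hj'
  rcases ω.2.2.1 j j' with h1 | h1 | h1 | h1
  · exact h1
  · rw [hj.2.1] at h1; exact absurd h1 (by simp)
  · rw [hj'.2.1] at h1; exact absurd h1 (by simp)
  · simp only at h
    rw [h] at h1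
    norm_num at h1

theorem cnt_meas (u v : ℝ) : Measurable (fun ω : Om => (X ω ∩ Icc u v).ncard) := by
  classical
  simp only [cnt_eq, fil, Finset.card_filter]
  refine Finset.measurable_sum _ fun j _ => Measurable.ite ?_ measurable_const measurable_const
  have h1 : Measurable (fun ω : Om => (ω.1 j).1) := (cont_b j).measurable
  have h2 : Measurable (fun ω : Om => (ω.1 j).2) := (cont_z j).measurable
  exact (h1 (measurableSet_singleton true)).inter
    ((measurableSet_le measurable_const h2).inter (measurableSet_le h2 measurable_const))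

theorem cnt_loc (ω : Om) (u v : ℝ) (hu : u ∉ X ω) (hv : v ∉ X ω) :
    ∀ᶠ ω' in 𝓝 ω, (X ω' ∩ Icc u v).ncard = (X ω ∩ Icc u v).ncard := by
  have key : ∀ j : ℤ, ∀ᶠ ω' in 𝓝 ω,
      ((ω'.1 j).1 = true ∧ u ≤ (ω'.1 j).2 ∧ (ω'.1 j).2 ≤ v) ↔
        ((ω.1 j).1 = true ∧ u ≤ (ω.1 j).2 ∧ (ω.1 j).2 ≤ v) := by
    intro j
    have c1 := cont_b j
    have c2 := cont_z j
    have e1 : ∀ᶠ ω' in 𝓝 ω, (ω'.1 j).1 = (ω.1 j).1 :=
      c1.continuousAt.eventually (p := fun b => b = (ω.1 j).1)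
        ((isOpen_discrete {(ω.1 j).1}).mem_nhds rfl)
    by_cases hb : (ω.1 j).1 = true
    · have h1 : (ω.1 j).2 ≠ u := fun h => hu ⟨j, hb, h⟩
      have h2 : (ω.1 j).2 ≠ v := fun h => hv ⟨j, hb, h⟩
      have e2 : ∀ᶠ ω' in 𝓝 ω, (u ≤ (ω'.1 j).2 ↔ u ≤ (ω.1 j).2) := by
        rcases lt_or_gt_of_ne h1 with h | h
        · filter_upwards [c2.continuousAt.eventually (gt_mem_nhds h)] with ω' h'
          exact iff_of_false (not_le.mpr h') (not_le.mpr h)
        · filter_upwards [c2.continuousAt.eventually (lt_mem_nhds h)] with ω' h'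
          exact iff_of_true h'.le h.le
      have e3 : ∀ᶠ ω' in 𝓝 ω, ((ω'.1 j).2 ≤ v ↔ (ω.1 j).2 ≤ v) := by
        rcases lt_or_gt_of_ne h2 with h | h
        · filter_upwards [c2.continuousAt.eventually (gt_mem_nhds h)] with ω' h'
          exact iff_of_true h'.le h.le
        · filter_upwards [c2.continuousAt.eventually (lt_mem_nhds h)] with ω' h'
          exact iff_of_false (not_le.mpr h') (not_le.mpr h)
      filter_upwards [e1, e2, e3] with ω' a1 a2 a3
      rw [a1, a2, a3]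
    · filter_upwards [e1] with ω' a1
      rw [a1]
      exact iff_of_false (fun h => hb h.1) (fun h => hb h.1)
  have := (Filter.eventually_all_finset (Finset.Icc (⌊u⌋ - 1) ⌈v⌉)).mpr fun j _ => key j
  filter_upwards [this] with ω' h
  rw [cnt_eq, cnt_eq]
  unfold fil
  congr 1
  exact Finset.filter_congr h

def Ev {ι : Type} (l r : ι → ℝ) (k : ι → ℕ) : Set Om :=
  {ω | ∀ i, (X ω ∩ Icc (l i) (r i)).ncard = k i}

theorem Ev_meas {ι : Type} [Finite ι] (l r : ι → ℝ) (k : ι → ℕ) : MeasurableSet (Ev l r k) := by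
  unfold Ev
  rw [ofPred_forall]
  exact MeasurableSet.iInter fun i => cnt_meas _ _ (measurableSet_singleton (k i))

theorem Ev_frontier {ι : Type} [Finite ι] (l r : ι → ℝ) (k : ι → ℕ) :
    frontier (Ev l r k) ⊆ ⋃ i, ({ω | l i ∈ X ω} ∪ {ω | r i ∈ X ω}) := by
  intro ω hω
  by_contra hc
  simp only [mem_iUnion, mem_union, mem_ofPred_eq, not_exists, not_or] at hc
  have h := Filter.eventually_all.mpr fun i => cnt_loc ω (l i) (r i) (hc i).1 (hc i).2
  rw [frontier_eq_closure_inter_closure] at hω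
  by_cases hE : ω ∈ Ev l r k
  · obtain ⟨ω', h1, h2⟩ := mem_closure_iff_nhds.mp hω.2 _ h
    exact h2 fun i => (h1 i).trans (hE i)
  · obtain ⟨ω', h1, h2⟩ := mem_closure_iff_nhds.mp hω.1 _ h
    exact hE fun i => (h1 i).symm.trans (h2 i)

open Classical in
noncomputable def pick (m : ℕ) (j : ℤ) (P : ℤ → Prop) : Bool × ℝ :=
  if h : ∃ x, P x then (true, (h.choose : ℝ) / m) else (false, (j : ℝ))

noncomputable def enc (m : ℕ) (ω : ℤ → Bool) (j : ℤ) : Bool × ℝ :=
  pick m j (fun x => ω x = true ∧ j * m ≤ x ∧ x < (j + 1) * m)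

theorem enc_meas (m : ℕ) : Measurable (enc m) := by
  refine measurable_pi_lambda _ fun j => fun s _ => ?_
  refine dep_meas (s := Finset.Ico (j * m) ((j + 1) * m)) ?_
  intro ω ω' h hω
  have : enc m ω j = enc m ω' j := by
    unfold enc
    congr 1
    funext x
    refine propext (and_congr_left fun hx => ?_)
    rw [h x (by simpa using hx)]
  simp only [mem_preimage] at hω ⊢
  rwa [← this]

theorem enc_true {m : ℕ} {ω : ℤ → Bool} {j : ℤ} (h : (enc m ω j).1 = true) :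
    ∃ x : ℤ, (ω x = true ∧ j * m ≤ x ∧ x < (j + 1) * m) ∧ (enc m ω j).2 = (x : ℝ) / m := by
  unfold enc pick at *
  split_ifs at h ⊢ with hx
  exact ⟨hx.choose, hx.choose_spec, rfl⟩

theorem enc_of {m : ℕ} {ω : ℤ → Bool} {j x : ℤ} (h : ω x = true ∧ j * m ≤ x ∧ x < (j + 1) * m) :
    (enc m ω j).1 = true := by
  unfold enc pick
  rw [dif_pos ⟨x, h⟩]

theorem cell_ex {m : ℕ} (hm : 0 < m) (x : ℤ) : ∃ j : ℤ, j * m ≤ x ∧ x < (j + 1) * m := by
  have h : (0 : ℤ) < m := by exact_mod_cast hm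
  exact ⟨x / m, Int.ediv_mul_le x h.ne', Int.lt_ediv_add_one_mul_self x h⟩

theorem enc_good {m : ℕ} (hm : 0 < m) {ω : ℤ → Bool} (hω : Net m (4 * m) ω) :
    GoodC (enc m ω) := by
  have hm' : (0 : ℝ) < m := by exact_mod_cast hm
  have hmz : (0 : ℤ) < m := by exact_mod_cast hm
  refine ⟨fun j => ?_, fun j j' => ?_, fun t => ?_⟩
  · by_cases hb : (enc m ω j).1 = true
    · obtain ⟨x, ⟨_, h1, h2⟩, h3⟩ := enc_true hb
      rw [h3]
      constructor
      · rw [le_div_iff₀ hm']; exact_mod_cast h1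
      · rw [div_le_iff₀ hm']; exact_mod_cast h2.le
    · have : (enc m ω j).2 = j := by
        unfold enc pick at *
        split_ifs at hb ⊢ with hx
        · simp at hb
        · rfl
      rw [this]
      exact ⟨le_rfl, by linarith⟩
  · by_contra hc
    push Not at hc
    obtain ⟨h1, h2, h3, h4⟩ := hc
    obtain ⟨x, ⟨a1, a2, a3⟩, a4⟩ := enc_true (by simpa using h2 : (enc m ω j).1 = true)
    obtain ⟨y, ⟨b1, b2, b3⟩, b4⟩ := enc_true (by simpa using h3 : (enc m ω j').1 = true)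
    rw [a4, b4, ← sub_div, abs_div, abs_of_pos hm', div_lt_one hm'] at h4
    have h5 : |x - y| < m := by exact_mod_cast h4
    rw [abs_lt] at h5
    have hxy : x = y := by
      rcases lt_trichotomy x y with h | h | h
      · have := hω.1 x y a1 b1 h; omega
      · exact h
      · have := hω.1 y x b1 a1 h; omega
    subst hxy
    apply h1
    have c1 : j < j' + 1 := lt_of_mul_lt_mul_right (a2.trans_lt b3) hmz.le
    have c2 : j' < j + 1 := lt_of_mul_lt_mul_right (b2.trans_lt a3) hmz.le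
    omega
  · obtain ⟨x, h1, h2, h3⟩ := hω.2 (t * m)
    obtain ⟨j, h4, h5⟩ := cell_ex hm x
    have c1 : t < j + 1 := lt_of_mul_lt_mul_right (h1.trans_lt h5) hmz.le
    have c2 : j < t + 4 := by
      refine lt_of_mul_lt_mul_right (h4.trans_lt (h2.trans_eq ?_)) hmz.le
      push_cast; ring
    refine ⟨⟨(j - t).toNat, by omega⟩, ?_⟩
    simp only
    rw [show t + ((j - t).toNat : ℕ) = j by omega]
    exact enc_of ⟨h3, h4, h5⟩

theorem X_enc {m : ℕ} (hm : 0 < m) {ω : ℤ → Bool} (hω : Net m (4 * m) ω) :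
    X ⟨enc m ω, enc_good hm hω⟩ = (fun x : ℤ => (x : ℝ) / m) '' {x | ω x = true} := by
  ext s
  simp only [X, mem_ofPred_eq, mem_image]
  constructor
  · rintro ⟨j, h1, rfl⟩
    obtain ⟨x, ⟨a1, _⟩, a4⟩ := enc_true h1
    exact ⟨x, a1, a4.symm⟩
  · rintro ⟨x, h1, rfl⟩
    obtain ⟨j, h4, h5⟩ := cell_ex hm x
    have h6 := enc_of ⟨h1, h4, h5⟩
    obtain ⟨y, ⟨b1, b2, b3⟩, b4⟩ := enc_true h6
    refine ⟨j, h6, ?_⟩
    have e : (j + 1) * (m : ℤ) = j * m + m := by ring
    have hxy : x = y := by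
      rcases lt_trichotomy x y with h | h | h
      · have := hω.1 x y h1 b1 h; omega
      · exact h
      · have := hω.1 y x b1 h1 h; omega
    rw [b4, hxy]

open Classical in
noncomputable def ret (m : ℕ) (ω0 ω : ℤ → Bool) : ℤ → Bool := if Net m (4 * m) ω then ω else ω0

theorem ret_net {m : ℕ} {ω0 : ℤ → Bool} (h0 : Net m (4 * m) ω0) (ω : ℤ → Bool) :
    Net m (4 * m) (ret m ω0 ω) := by
  unfold ret
  split_ifs with h
  · exact h
  · exact h0

noncomputable def Phi {m : ℕ} (hm : 0 < m) {ω0 : ℤ → Bool} (h0 : Net m (4 * m) ω0)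
    (ω : ℤ → Bool) : Om := ⟨enc m (ret m ω0 ω), enc_good hm (ret_net h0 ω)⟩

theorem Phi_meas {m : ℕ} (hm : 0 < m) {ω0 : ℤ → Bool} (h0 : Net m (4 * m) ω0) :
    Measurable (Phi hm h0) := by
  refine Measurable.subtype_mk ((enc_meas m).comp ?_)
  unfold ret
  exact Measurable.ite (meas_Net _ _) measurable_id measurable_const

theorem X_Phi {m : ℕ} (hm : 0 < m) {ω0 : ℤ → Bool} (h0 : Net m (4 * m) ω0) {ω : ℤ → Bool}
    (hω : Net m (4 * m) ω) :
    X (Phi hm h0 ω) = (fun x : ℤ => (x : ℝ) / m) '' {x | ω x = true} := by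
  unfold Phi
  rw [X_enc hm (ret_net h0 ω)]
  unfold ret
  rw [if_pos hω]

noncomputable def cN (m : ℕ) (ω : ℤ → Bool) (u v : ℝ) : ℕ :=
  {x : ℤ | ω x = true ∧ u * m ≤ x ∧ (x : ℝ) ≤ v * m}.ncard

theorem cnt_Phi {m : ℕ} (hm : 0 < m) {ω0 : ℤ → Bool} (h0 : Net m (4 * m) ω0) {ω : ℤ → Bool}
    (hω : Net m (4 * m) ω) (u v : ℝ) : (X (Phi hm h0 ω) ∩ Icc u v).ncard = cN m ω u v := by
  have hm' : (0 : ℝ) < m := by exact_mod_cast hm
  rw [X_Phi hm h0 hω, ← image_inter_preimage, Set.ncard_image_of_injective]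
  · unfold cN
    congr 1
    ext x
    simp only [mem_inter_iff, mem_ofPred_eq, mem_preimage, mem_Icc, le_div_iff₀ hm',
      div_le_iff₀ hm']
  · intro x y h
    simp only at h
    rw [div_left_inj' hm'.ne'] at h
    exact_mod_cast h

def EvN {ι : Type} (m : ℕ) (l r : ι → ℝ) (k : ι → ℕ) : Set (ℤ → Bool) :=
  {ω | ∀ i, cN m ω (l i) (r i) = k i}

theorem EvN_dep {ι : Type} [Fintype ι] (m : ℕ) (l r : ι → ℝ) (k : ι → ℕ) :
    DepOn (EvN m l r k) ((Finset.univ.biUnion fun i => Finset.Icc ⌈l i * m⌉ ⌊r i * m⌋ :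
      Finset ℤ) : Set ℤ) := by
  intro ω ω' h hω i
  rw [← hω i]
  unfold cN
  congr 1
  ext x
  simp only [mem_ofPred_eq]
  refine and_congr_left fun hx => ?_
  rw [h x]
  simp only [Finset.coe_biUnion, mem_iUnion, Finset.coe_Icc, mem_Icc]
  exact ⟨i, by simp, Int.ceil_le.mpr hx.1, Int.le_floor.mpr hx.2⟩

theorem map_Ev {μ : Measure (ℤ → Bool)} {m : ℕ} (hm : 0 < m) (hμ : Good μ m) {ω0 : ℤ → Bool}
    (h0 : Net m (4 * m) ω0) {ι : Type} [Finite ι] (l r : ι → ℝ) (k : ι → ℕ) :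
    μ.map (Phi hm h0) (Ev l r k) = μ (EvN m l r k) := by
  rw [Measure.map_apply (Phi_meas hm h0) (Ev_meas l r k)]
  refine measure_congr ?_
  filter_upwards [hμ.net] with ω hω
  refine propext ?_
  change (∀ i, (X (Phi hm h0 ω) ∩ Icc (l i) (r i)).ncard = k i) ↔ ∀ i, cN m ω (l i) (r i) = k i
  simp only [cnt_Phi hm h0 hω]

theorem rho_le {μ : Measure (ℤ → Bool)} {m : ℕ} (hm : 0 < m) (hμ : Good μ m) (x : ℤ) :
    μ.real {ω | ω x = true} ≤ 1 / m := by
  have := hμ.prob
  have hm' : (0 : ℝ) < m := by exact_mod_cast hm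
  have e : ∀ y : ℤ, {ω : ℤ → Bool | ω y = true} = Cyl y [true] := by
    intro y; simp [Cyl]
  have h1 := sum_measure_le_measure_univ (μ := μ) (s := Finset.range m)
    (t := fun i : ℕ => Cyl (i : ℤ) [true]) (fun i _ => (meas_Cyl _ _).nullMeasurableSet) (by
      intro i hi j hj hij
      simp only [Function.onFun, AEDisjoint]
      refine measure_mono_null ?_ hμ.net
      rintro ω ⟨h1, h2⟩ hω
      rw [← e] at h1 h2
      simp only [Finset.coe_range, mem_Iio] at hi hj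
      rcases lt_or_gt_of_ne hij with h | h
      · have := hω.1 i j h1 h2 (by exact_mod_cast h); omega
      · have := hω.1 j i h2 h1 (by exact_mod_cast h); omega)
  simp only [hμ.stat.cyl _ [true], Finset.sum_const, Finset.card_range, measure_univ,
    nsmul_eq_mul] at h1
  rw [e, Measure.real, hμ.stat.cyl, le_div_iff₀ hm', mul_comm]
  have h2 := ENNReal.toReal_mono ENNReal.one_ne_top h1
  simpa using h2

theorem shift_le {μ : Measure (ℤ → Bool)} {m : ℕ} (hm : 0 < m) (hμ : Good μ m)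
    {ι : Type} [Fintype ι] (l r : ι → ℝ) (k : ι → ℕ) (t : ℝ) :
    μ.real (EvN m (fun i => l i + t) (fun i => r i + t) k) ≤
      μ.real (EvN m l r k) + 2 * Fintype.card ι * (1 / m) := by
  have := hμ.prob
  set s : ℤ := ⌊t * m⌋ with hs
  have s1 : (s : ℝ) ≤ t * m := Int.floor_le _
  have s2 : t * m < s + 1 := Int.lt_floor_add_one _
  have hsub : EvN m (fun i => l i + t) (fun i => r i + t) k ⊆ shift s ⁻¹' (EvN m l r k ∪
      ⋃ i ∈ (Finset.univ : Finset ι),
        ({ω | ω ⌈l i * m⌉ = true} ∪ {ω | ω (⌊r i * m⌋ + 1) = true})) := by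
    intro ω hω
    rw [mem_preimage, mem_union, or_iff_not_imp_right]
    intro hc i
    simp only [Finset.mem_univ, iUnion_true, mem_iUnion, mem_union, mem_ofPred_eq, not_exists,
      not_or] at hc
    rw [← hω i]
    unfold cN
    rw [← Set.ncard_image_of_injective _ (add_left_injective s)]
    congr 1
    ext x
    obtain ⟨y, rfl⟩ : ∃ y, x = y + s := ⟨x - s, by ring⟩
    rw [(add_left_injective s).mem_set_image]
    simp only [mem_ofPred_eq, shift]
    refine and_congr_right fun hy => ?_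
    have n1 : y ≠ ⌈l i * m⌉ := by
      rintro rfl
      exact (hc i).1 hy
    have n2 : y ≠ ⌊r i * m⌋ + 1 := by
      rintro rfl
      exact (hc i).2 hy
    push_cast
    refine and_congr ⟨fun h => ?_, fun h => by linarith⟩ ⟨fun h => by linarith, fun h => ?_⟩
    · have a1 : ⌈l i * m⌉ ≤ y := Int.ceil_le.mpr h
      have a2 : ⌈l i * m⌉ + 1 ≤ y := by omega
      have a3 : ((⌈l i * m⌉ : ℤ) : ℝ) + 1 ≤ y := by exact_mod_cast a2
      have a4 := Int.le_ceil (l i * m)
      linarith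
    · have a1 : (y : ℝ) < ⌊r i * m⌋ + 2 := by
        have := Int.lt_floor_add_one (r i * m)
        linarith
      have a2 : y < ⌊r i * m⌋ + 2 := by exact_mod_cast a1
      have a3 : y ≤ ⌊r i * m⌋ := by omega
      exact Int.le_floor.mp a3
  have h1 : μ (EvN m (fun i => l i + t) (fun i => r i + t) k) ≤ μ (EvN m l r k ∪
      ⋃ i ∈ (Finset.univ : Finset ι),
        ({ω | ω ⌈l i * m⌉ = true} ∪ {ω | ω (⌊r i * m⌋ + 1) = true})) := by
    refine (measure_mono hsub).trans ?_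
    have := Measure.le_map_apply (μ := μ) (meas_shift s).aemeasurable (EvN m l r k ∪
      ⋃ i ∈ (Finset.univ : Finset ι),
        ({ω | ω ⌈l i * m⌉ = true} ∪ {ω | ω (⌊r i * m⌋ + 1) = true}))
    rwa [(hμ.stat s).map_eq] at this
  refine (ENNReal.toReal_mono (measure_ne_top _ _) h1).trans ?_
  refine (measureReal_union_le _ _).trans (add_le_add le_rfl ?_)
  refine (measureReal_biUnion_finset_le _ _).trans ?_
  refine (Finset.sum_le_card_nsmul _ _ (2 * (1 / (m : ℝ))) fun i _ => ?_).trans ?_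
  · refine (measureReal_union_le _ _).trans ?_
    have a1 := rho_le hm hμ ⌈l i * m⌉
    have a2 := rho_le hm hμ (⌊r i * m⌋ + 1)
    linarith
  · rw [Finset.card_univ, nsmul_eq_mul]
    linarith

def near (s ε : ℝ) : Set Om := {ω | ∃ j : ℤ, (ω.1 j).1 = true ∧ |(ω.1 j).2 - s| < ε}

theorem near_open (s ε : ℝ) : IsOpen (near s ε) := by
  unfold near
  simp only [ofPred_exists, ofPred_and]
  refine isOpen_iUnion fun j => IsOpen.inter ?_ (isOpen_lt ((cont_z j).sub continuous_const).abs continuous_const)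
  exact (closed_b j true).isOpen.preimage continuous_subtype_val

theorem near_le {μ : Measure (ℤ → Bool)} {m : ℕ} (hm : 0 < m) (hμ : Good μ m) {ω0 : ℤ → Bool}
    (h0 : Net m (4 * m) ω0) (s ε : ℝ) (hε : 0 < ε) :
    (μ.map (Phi hm h0)).real (near s ε) ≤ 2 * ε + 1 / m := by
  have := hμ.prob
  have hm' : (0 : ℝ) < m := by exact_mod_cast hm
  have h1 : μ (Phi hm h0 ⁻¹' near s ε) ≤
      μ (⋃ x ∈ Finset.Icc ⌈(s - ε) * m⌉ ⌊(s + ε) * m⌋, {ω | ω x = true}) := by
    refine measure_mono_ae ?_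
    filter_upwards [hμ.net] with ω hω hn
    obtain ⟨j, a1, a2⟩ := hn
    have a3 : ((Phi hm h0 ω).1 j).2 ∈ X (Phi hm h0 ω) := ⟨j, a1, rfl⟩
    rw [X_Phi hm h0 hω] at a3
    obtain ⟨x, a4, a5⟩ := a3
    rw [← a5, abs_lt] at a2
    simp only at a2
    refine mem_iUnion₂.mpr ⟨x, Finset.mem_Icc.mpr ⟨Int.ceil_le.mpr ?_, Int.le_floor.mpr ?_⟩, a4⟩
    · rw [← le_div_iff₀ hm']; linarith
    · rw [← div_le_iff₀ hm']; linarith
  rw [Measure.real, Measure.map_apply (Phi_meas hm h0) (near_open s ε).measurableSet]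
  refine (ENNReal.toReal_mono (measure_ne_top _ _) h1).trans ?_
  refine (measureReal_biUnion_finset_le _ _).trans ?_
  refine (Finset.sum_le_card_nsmul _ _ (1 / (m : ℝ)) fun x _ => rho_le hm hμ x).trans ?_
  rw [nsmul_eq_mul, Int.card_Icc]
  have a1 : (((⌊(s + ε) * m⌋ + 1 - ⌈(s - ε) * m⌉).toNat : ℕ) : ℝ) ≤ 2 * ε * m + 1 := by
    have b1 := Int.floor_le ((s + ε) * m)
    have b2 := Int.le_ceil ((s - ε) * m)
    rcases le_total 0 (⌊(s + ε) * m⌋ + 1 - ⌈(s - ε) * m⌉) with h | h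
    · have : (((⌊(s + ε) * m⌋ + 1 - ⌈(s - ε) * m⌉).toNat : ℕ) : ℝ) =
          ((⌊(s + ε) * m⌋ + 1 - ⌈(s - ε) * m⌉ : ℤ) : ℝ) := by
        rw [← Int.cast_natCast, Int.toNat_of_nonneg h]
      rw [this]
      push_cast
      nlinarith
    · rw [Int.toNat_eq_zero.mpr h, Nat.cast_zero]
      positivity
  calc _ ≤ (2 * ε * m + 1) * (1 / (m : ℝ)) := by gcongr
    _ = 2 * ε + 1 / m := by field_simp

theorem exists_limit : ∃ P : Measure Om, IsProbabilityMeasure P ∧
    (∀ (ι : Type) [Fintype ι] (l r : ι → ℝ) (k : ι → ℕ) (t : ℝ),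
      P (Ev l r k) = P (Ev (fun i => l i + t) (fun i => r i + t) k)) ∧
    (∀ (ι ι' : Type) [Finite ι] [Finite ι'] (l r : ι → ℝ) (k : ι → ℕ) (l' r' : ι' → ℝ)
      (k' : ι' → ℕ), (∀ i, r i ≤ 0) → (∀ i, 17 ≤ l' i) →
      P (Ev l r k ∩ Ev l' r' k') = P (Ev l r k) * P (Ev l' r' k')) := by
  choose μ hμ using exists_good
  have hpos : ∀ N : ℕ, 0 < 2 ^ N := fun N => by positivity
  have hex : ∀ N : ℕ, ∃ ω, Net (2 ^ N) (4 * 2 ^ N) ω := fun N => by
    have := (hμ N).prob
    obtain ⟨ω, -, h⟩ := exists_net (hμ N) (S := univ) (by simp)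
    exact ⟨ω, h⟩
  choose ω0 h0 using hex
  let νs : ℕ → ProbabilityMeasure Om := fun N => ⟨(μ N).map (Phi (hpos N) (h0 N)), by
    have := (hμ N).prob
    exact Measure.isProbabilityMeasure_map (Phi_meas _ _).aemeasurable⟩
  let U : Ultrafilter ℕ := Ultrafilter.of atTop
  have hU : (U : Filter ℕ) ≤ atTop := Ultrafilter.of_le _
  obtain ⟨ν, -, hν⟩ := isCompact_univ.ultrafilter_le_nhds (U.map νs) (by simp)
  have hlim : Tendsto νs U (𝓝 ν) := hν
  have hinv : Tendsto (fun N : ℕ => 1 / ((2 ^ N : ℕ) : ℝ)) U (𝓝 0) := by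
    refine Tendsto.mono_left ?_ hU
    simp only [one_div, Nat.cast_pow, Nat.cast_ofNat]
    exact tendsto_inv_atTop_zero.comp (tendsto_pow_atTop_atTop_of_one_lt (by norm_num))
  have hnull : ∀ s : ℝ, (ν : Measure Om) {ω | s ∈ X ω} = 0 := by
    intro s
    refine le_antisymm (ENNReal.le_of_forall_pos_le_add fun ε hε _ => ?_) (zero_le)
    have hε' : (0 : ℝ) < ε / 3 := by positivity
    have h1 : {ω | s ∈ X ω} ⊆ near s (ε / 3) := by
      rintro ω ⟨j, a1, a2⟩
      exact ⟨j, a1, by rw [a2]; simpa using hε'⟩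
    refine (measure_mono h1).trans ((ProbabilityMeasure.le_liminf_measure_open_of_tendsto hlim
      (near_open s _)).trans ?_)
    refine liminf_le_of_frequently_le' (Eventually.frequently ?_)
    filter_upwards [hinv.eventually (gt_mem_nhds hε')] with N hN
    have h2 := near_le (hpos N) (hμ N) (h0 N) s _ hε'
    have h3 : (νs N : Measure Om).real (near s (ε / 3)) ≤ ε := by
      change ((μ N).map (Phi (hpos N) (h0 N))).real _ ≤ _
      linarith
    rw [zero_add, ← ENNReal.ofReal_coe_nnreal, ← ofReal_measureReal (measure_ne_top _ _)]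
    exact ENNReal.ofReal_le_ofReal h3
  have hT : ∀ (ι : Type) [Finite ι] (l r : ι → ℝ) (k : ι → ℕ),
      Tendsto (fun N => μ N (EvN (2 ^ N) l r k)) U (𝓝 ((ν : Measure Om) (Ev l r k))) := by
    intro ι _ l r k
    have h1 := ProbabilityMeasure.tendsto_measure_of_null_frontier_of_tendsto' hlim
      (E := Ev l r k) (measure_mono_null (Ev_frontier l r k)
        (measure_iUnion_null fun i => measure_union_null (hnull _) (hnull _)))
    refine h1.congr fun N => ?_
    exact map_Ev (hpos N) (hμ N) (h0 N) l r k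
  refine ⟨ν, inferInstance, ?_, ?_⟩
  · have hle : ∀ (ι : Type) [Fintype ι] (l r : ι → ℝ) (k : ι → ℕ) (t : ℝ),
        (ν : Measure Om) (Ev (fun i => l i + t) (fun i => r i + t) k) ≤
          (ν : Measure Om) (Ev l r k) := by
      intro ι _ l r k t
      rw [← ENNReal.toReal_le_toReal (measure_ne_top _ _) (measure_ne_top _ _)]
      have a1 := (ENNReal.tendsto_toReal (measure_ne_top _ _)).comp
        (hT ι (fun i => l i + t) (fun i => r i + t) k)
      have a2 := ((ENNReal.tendsto_toReal (measure_ne_top _ _)).comp (hT ι l r k)).add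
        (hinv.const_mul (2 * (Fintype.card ι : ℝ)))
      rw [mul_zero, add_zero] at a2
      exact le_of_tendsto_of_tendsto' a1 a2 fun N => shift_le (hpos N) (hμ N) l r k t
    intro ι _ l r k t
    refine le_antisymm ?_ (hle ι l r k t)
    have := hle ι (fun i => l i + t) (fun i => r i + t) k (-t)
    simpa using this
  · intro ι ι' _ _ l r k l' r' k' hr hl
    have e : Ev l r k ∩ Ev l' r' k' = Ev (Sum.elim l l') (Sum.elim r r') (Sum.elim k k') := by
      ext ω
      simp [Ev]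
    have eN : ∀ m, EvN m (Sum.elim l l') (Sum.elim r r') (Sum.elim k k') =
        EvN m l r k ∩ EvN m l' r' k' := by
      intro m
      ext ω
      simp [EvN]
    rw [e]
    have a1 := hT _ (Sum.elim l l') (Sum.elim r r') (Sum.elim k k')
    have a2 := ENNReal.Tendsto.mul (hT ι l r k) (Or.inr (measure_ne_top _ _)) (hT ι' l' r' k')
      (Or.inr (measure_ne_top _ _))
    refine tendsto_nhds_unique a1 (a2.congr fun N => ?_)
    have := Fintype.ofFinite ι
    have := Fintype.ofFinite ι'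
    have hm' : (1 : ℝ) ≤ ((2 ^ N : ℕ) : ℝ) := by exact_mod_cast hpos N
    rw [eN]
    refine ((hμ N).dep 1 _ _ _ _ ?_ ?_ (EvN_dep _ l r k) (EvN_dep _ l' r' k')).symm
    · intro x hx
      simp only [Finset.mem_biUnion, Finset.mem_Icc] at hx
      obtain ⟨i, -, -, h2⟩ := hx
      have h3 := Int.le_floor.mp h2
      have h4 : r i * ((2 ^ N : ℕ) : ℝ) ≤ 0 := mul_nonpos_of_nonpos_of_nonneg (hr i) (by linarith)
      have h5 : (x : ℝ) ≤ 0 := h3.trans h4
      have h6 : x ≤ 0 := by exact_mod_cast h5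
      omega
    · intro x hx
      simp only [Finset.mem_biUnion, Finset.mem_Icc] at hx
      obtain ⟨i, -, h2, -⟩ := hx
      have h3 := Int.ceil_le.mp h2
      have h4 : 17 * ((2 ^ N : ℕ) : ℝ) ≤ l' i * ((2 ^ N : ℕ) : ℝ) := by
        gcongr
        exact hl i
      have h5 : ((1 + ((16 * 2 ^ N : ℕ) : ℤ) : ℤ) : ℝ) ≤ x := by
        push_cast at *
        linarith
      exact_mod_cast h5

theorem indep_final (P : Measure Om) [IsProbabilityMeasure P]
    (hP : ∀ (ι ι' : Type) [Finite ι] [Finite ι'] (l r : ι → ℝ) (k : ι → ℕ) (l' r' : ι' → ℝ)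
      (k' : ι' → ℕ), (∀ i, r i ≤ 0) → (∀ i, 17 ≤ l' i) →
      P (Ev l r k ∩ Ev l' r' k') = P (Ev l r k) * P (Ev l' r' k')) :
    Indep
      (⨆ u : ℝ, ⨆ v : ℝ, MeasurableSpace.comap
        (fun ω : Om => (X ω ∩ Set.Icc u (min v 0)).ncard) (inferInstance : MeasurableSpace ℕ))
      (⨆ u : ℝ, ⨆ v : ℝ, MeasurableSpace.comap
        (fun ω : Om => (X ω ∩ Set.Icc (max u 17) v).ncard) (inferInstance : MeasurableSpace ℕ))
      P := by
  let pi : (ℝ → ℝ → Prop) → Set (Set Om) := fun C =>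
    {S | ∃ (ι : Type) (_ : Finite ι) (l r : ι → ℝ) (k : ι → ℕ), (∀ i, C (l i) (r i)) ∧
      S = Ev l r k}
  have hpi : ∀ C, IsPiSystem (pi C) := by
    rintro C _ ⟨ι, _, l, r, k, h, rfl⟩ _ ⟨ι', _, l', r', k', h', rfl⟩ -
    refine ⟨ι ⊕ ι', inferInstance, Sum.elim l l', Sum.elim r r', Sum.elim k k', ?_, ?_⟩
    · rintro (i | i)
      · exact h i
      · exact h' i
    · ext ω
      simp [Ev]
  have hme : ∀ C, ∀ S ∈ pi C, MeasurableSet S := by
    rintro C _ ⟨ι, _, l, r, k, -, rfl⟩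
    exact Ev_meas l r k
  have hle : ∀ (C : ℝ → ℝ → Prop) (u v : ℝ), C u v → MeasurableSpace.comap
      (fun ω : Om => (X ω ∩ Set.Icc u v).ncard) (inferInstance : MeasurableSpace ℕ) ≤
        MeasurableSpace.generateFrom (pi C) := by
    intro C u v hC
    refine Measurable.comap_le (m₁ := MeasurableSpace.generateFrom (pi C)) ?_
    refine @measurable_to_countable' ℕ Om _ _ (MeasurableSpace.generateFrom (pi C)) _ fun n => ?_
    refine MeasurableSpace.measurableSet_generateFrom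
      ⟨Unit, inferInstance, fun _ => u, fun _ => v, fun _ => n, fun _ => hC, ?_⟩
    ext ω
    simp [Ev]
  have h1 : Indep (MeasurableSpace.generateFrom (pi fun _ v => v ≤ 0))
      (MeasurableSpace.generateFrom (pi fun u _ => 17 ≤ u)) P := by
    refine IndepSets.indep' (hme fun _ v => v ≤ 0) (hme fun u _ => 17 ≤ u)
      (hpi fun _ v => v ≤ 0) (hpi fun u _ => 17 ≤ u) ?_
    rw [IndepSets_iff]
    rintro _ _ ⟨ι, _, l, r, k, h, rfl⟩ ⟨ι', _, l', r', k', h', rfl⟩
    exact hP ι ι' l r k l' r' k' h h'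
  refine indep_of_indep_of_le_right (indep_of_indep_of_le_left h1 ?_) ?_
  · exact iSup_le fun u => iSup_le fun v => hle (fun _ v => v ≤ 0) u (min v 0) (min_le_right v 0)
  · exact iSup_le fun u => iSup_le fun v => hle (fun u _ => 17 ≤ u) (max u 17) v (le_max_right u 17)

theorem X_sep (ω : Om) : ∀ x ∈ X ω, ∀ y ∈ X ω, x ≠ y → 1 ≤ |x - y| := by
  rintro _ ⟨j, h1, rfl⟩ _ ⟨j', h2, rfl⟩ h
  rcases ω.2.2.1 j j' with h3 | h3 | h3 | h3
  · exact absurd (by rw [h3]) h
  · rw [h1] at h3; exact absurd h3 (by simp)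
  · rw [h2] at h3; exact absurd h3 (by simp)
  · exact h3

theorem X_dense (ω : Om) (t : ℝ) : (X ω ∩ Icc t (t + 5)).Nonempty := by
  obtain ⟨k, hk⟩ := ω.2.2.2 ⌈t⌉
  obtain ⟨h1, h2⟩ := ω.2.1 (⌈t⌉ + (k : ℕ))
  have h3 := Int.le_ceil t
  have h4 := Int.ceil_lt_add_one t
  have h5 : ((k : ℕ) : ℝ) ≤ 3 := by exact_mod_cast Nat.lt_succ_iff.mp k.2
  have h6 : (0 : ℝ) ≤ ((k : ℕ) : ℝ) := Nat.cast_nonneg _
  push_cast at h1 h2
  exact ⟨_, ⟨_, hk, rfl⟩, by linarith, by linarith⟩

end Pool.Agent.H444Z.PP
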