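import Pool.Agent.H444Z.PP.Kol

set_option autoImplicit false

namespace Pool.Agent.H444Z.PP

open MeasureTheory ProbabilityTheory Set Filter Topology Pool.Agent.H444Z.BF
open scoped ENNReal

noncomputable def hR (x : List (Fin 4)) : ℝ := (B x : ℝ) / (total x.length : ℝ)

theorem hR_nonneg (x : List (Fin 4)) : 0 ≤ hR x := by unfold hR; positivity

theorem hR_key (u v : List (Fin 4)) : ∑ a : Fin 4, hR (u ++ a :: v) = hR u * hR v := by
  unfold hR
  simp only [List.length_append, List.length_cons]
  rw [← Finset.sum_div, ← Nat.cast_sum, key', total_eq, total_eq, total_eq]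
  have h := Nat.add_choose_mul_factorial_mul_factorial (v.length + 1) (u.length + 1)
  have h1 : v.length + 1 + (u.length + 1) = u.length + v.length + 2 := by ring
  have h2 : u.length + (v.length + 1) + 1 = u.length + v.length + 2 := by ring
  rw [h1] at h
  rw [h2, ← h]
  have h3 : ((u.length + v.length + 2).choose (u.length + 1) : ℝ) ≠ 0 := by
    have := Nat.choose_pos (n := u.length + v.length + 2) (k := u.length + 1) (by omega)
    positivity
  push_cast
  field_simp
  ring

noncomputable def h (x : List (Fin 4)) : ℝ≥0∞ := ENNReal.ofReal (hR x)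

theorem h_key (u v : List (Fin 4)) : ∑ a : Fin 4, h (u ++ a :: v) = h u * h v := by
  unfold h
  rw [← ENNReal.ofReal_sum_of_nonneg (fun a _ => hR_nonneg _), hR_key,
    ENNReal.ofReal_mul (hR_nonneg _)]

theorem h_nil : h [] = 1 := by simp [h, hR, B_nil, total_eq]

theorem h_l (v : List (Fin 4)) : ∑ a : Fin 4, h (a :: v) = h v := by
  have := h_key [] v
  simpa [h_nil] using this

theorem h_r (u : List (Fin 4)) : ∑ a : Fin 4, h (u ++ [a]) = h u := by
  have := h_key u []
  simpa [h_nil] using this

theorem h_chain {x : List (Fin 4)} (hx : h x ≠ 0) : x.IsChain (· ≠ ·) := by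
  by_contra hc
  apply hx
  simp [h, hR, B_not_chain hc]

abbrev O : Type := Option (Fin 4)

instance instMO : MeasurableSpace O := ⊤
instance : MeasurableSingletonClass O := ⟨fun _ => trivial⟩

def red (w : List O) : List (Fin 4) := w.filterMap id
def bar (w : List O) : List Bool := w.map Option.isSome

theorem red_append (u v : List O) : red (u ++ v) = red u ++ red v := List.filterMap_append
theorem bar_append (u v : List O) : bar (u ++ v) = bar u ++ bar v := List.map_append
theorem red_none (w : List O) : red (none :: w) = red w := rfl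
theorem red_some (c : Fin 4) (w : List O) : red (some c :: w) = c :: red w := rfl
theorem bar_none (w : List O) : bar (none :: w) = false :: bar w := rfl
theorem bar_some (c : Fin 4) (w : List O) : bar (some c :: w) = true :: bar w := rfl

theorem B1 (y : List (Fin 4)) (g : ℕ) : ∀ F : List Bool → ℝ≥0∞,
    sumN g (fun z : List O => F (bar z) * h (red z ++ y)) = h y * sumN g F := by
  induction g with
  | zero => intro F; simp [sumN, bar, red, mul_comm]
  | succ g ih =>
    intro F
    simp only [sumN, Fintype.sum_option, Fintype.sum_bool, red_none, red_some, bar_none,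
      bar_some, List.cons_append]
    rw [← sumN_sum]
    simp only [← Finset.mul_sum, h_l]
    rw [ih (fun z => F (false :: z)), ih (fun z => F (true :: z))]
    ring

theorem B2 (x y : List (Fin 4)) (g : ℕ) : ∀ F : List Bool → ℝ≥0∞,
    (∀ b : List Bool, b.length = g → true ∉ b → F b = 0) →
    sumN g (fun z : List O => F (bar z) * h (x ++ red z ++ y)) = h x * h y * sumN g F := by
  induction g with
  | zero =>
    intro F hF
    simp [sumN, bar, hF [] rfl (by simp)]
  | succ g ih =>
    intro F hF
    simp only [sumN, Fintype.sum_option, Fintype.sum_bool, red_none, red_some, bar_none,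
      bar_some]
    rw [← sumN_sum, ih (fun z => F (false :: z))
      (fun b hb hb' => hF _ (by simp [hb]) (by simp [hb']))]
    simp only [← Finset.mul_sum, List.append_assoc, List.cons_append, h_key]
    have : (fun z : List O => F (true :: bar z) * (h x * h (red z ++ y))) =
        fun z : List O => h x * (F (true :: bar z) * h (red z ++ y)) := by
      funext z; ring
    rw [this, sumN_mul, B1 y g (fun z => F (true :: z))]
    ring

def Net (a b : ℕ) (ω : ℤ → Bool) : Prop :=
  (∀ x y : ℤ, ω x = true → ω y = true → x < y → x + a ≤ y) ∧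
  (∀ t : ℤ, ∃ x : ℤ, t ≤ x ∧ x < t + b ∧ ω x = true)

structure Good (μ : Measure (ℤ → Bool)) (a : ℕ) : Prop where
  prob : IsProbabilityMeasure μ
  stat : Stat μ
  dep : Dep μ (16 * a)
  net : ∀ᵐ ω ∂μ, Net a (4 * a) ω

theorem exists_net {μ : Measure (ℤ → Bool)} {a : ℕ} (hμ : Good μ a) {S : Set (ℤ → Bool)}
    (hS : μ S ≠ 0) : ∃ ω ∈ S, Net a (4 * a) ω := by
  by_contra hc
  push Not at hc
  apply hS
  refine measure_mono_null (fun ω hω => hc ω hω) ?_
  exact hμ.net

def Marked (a : ℕ) (w : ℤ → O) : Prop :=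
  (∀ t : ℤ, ∃ x : ℤ, t ≤ x ∧ x < t + (4 * a : ℕ) ∧ (w x).isSome = true) ∧
  (∀ (x y : ℤ) (c : Fin 4), w x = some c → w y = some c → x < y → x + (2 * a : ℕ) ≤ y)

theorem mark {μ : Measure (ℤ → Bool)} {a : ℕ} (hμ : Good μ a) :
    ∃ μ' : Measure (ℤ → O), IsProbabilityMeasure μ' ∧ Stat μ' ∧ Dep μ' (16 * a) ∧
      ∀ᵐ w ∂μ', Marked a w := by
  have := hμ.prob
  let p : List O → ℝ≥0∞ := fun w => μ (Cyl 0 (bar w)) * h (red w)
  have Pl : ∀ w : List Bool, μ (Cyl 0 (false :: w)) + μ (Cyl 0 (true :: w)) = μ (Cyl 0 w) := by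
    intro w
    have := sum_mid μ (Cyl (0 + 1) w) (meas_Cyl _ _) 0
    rw [Fintype.sum_bool, hμ.stat.cyl (0 + 1) w] at this
    rw [← this, add_comm]
    rfl
  have Pr : ∀ w : List Bool,
      μ (Cyl 0 (w ++ [false])) + μ (Cyl 0 (w ++ [true])) = μ (Cyl 0 w) := by
    intro w
    have := sum_mid μ (Cyl 0 w) (meas_Cyl _ _) (0 + w.length)
    rw [Fintype.sum_bool] at this
    rw [← this, add_comm, Cyl_append, Cyl_append]
    simp only [Cyl, inter_univ]
    rw [inter_comm (Cyl 0 w), inter_comm (Cyl 0 w)]
  obtain ⟨μ', hp, hc⟩ := kol p (by simp [p, bar, red, Cyl, h_nil]) (by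
      intro w
      simp only [p, Fintype.sum_option, red_none, red_some, bar_none, bar_some,
        ← Finset.mul_sum, h_l]
      rw [← add_mul, Pl]) (by
      intro w
      simp only [p, Fintype.sum_option, red_append, bar_append, red_none, red_some, bar_none,
        bar_some, ← Finset.mul_sum]
      simp only [red, bar, List.filterMap_nil, List.map_nil, List.append_nil, h_r]
      rw [← add_mul, Pr])
  refine ⟨μ', hp, stat_of_cyl μ' (fun i j w => by rw [hc, hc]), dep_of_cyl μ' _ ?_, ?_⟩
  · intro i u v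
    rw [gap_sum]
    simp only [hc, p, bar_append, red_append]
    rw [B2 (red u) (red v) (16 * a) (fun b => μ (Cyl 0 (bar u ++ b ++ bar v))), ← gap_sum,
      hμ.dep (0 + (bar u).length) _ _ _ _ (by simp)
        (fun x hx => (Finset.mem_Ico.mp hx).1) (dep_Cyl _ _) (dep_Cyl _ _),
      hμ.stat.cyl _ (bar v)]
    · ring
    · intro b hb hb'
      by_contra hne
      obtain ⟨ω, h1, h2⟩ := exists_net hμ hne
      rw [Cyl_append, Cyl_append] at h1
      have h3 := h1.1.2
      rw [mem_Cyl] at h3
      obtain ⟨x, h4, h5, h6⟩ := h2.2 (0 + (bar u).length)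
      have h7 := h3 (x - (0 + (bar u).length)).toNat (by push_cast at h5; omega)
      rw [show (0 : ℤ) + (bar u).length + ((x - (0 + (bar u).length)).toNat : ℕ) = x by omega,
        h6] at h7
      apply hb'
      rw [h7]
      exact List.getElem_mem _
  · filter_upwards [ae_cyl μ'] with w hw
    have loc : ∀ (i : ℤ) (n : ℕ), (∃ ω, Net a (4 * a) ω ∧
        ∀ x, i ≤ x → x < i + n → ω x = (w x).isSome) ∧ (red (win i n w)).IsChain (· ≠ ·) := by
      intro i n
      have h1 := hw i (win i n w) ((mem_Cyl_win w w n i).mpr fun _ _ _ => rfl)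
      rw [hc] at h1
      simp only [p, ne_eq, mul_eq_zero, not_or] at h1
      refine ⟨?_, h_chain h1.2⟩
      have h2 := h1.1
      rw [← hμ.stat.cyl i] at h2
      obtain ⟨ω, h3, h4⟩ := exists_net hμ h2
      refine ⟨ω, h4, ?_⟩
      unfold bar at h3
      rw [win_map, mem_Cyl_win] at h3
      exact h3
    have sep : ∀ x y : ℤ, (w x).isSome = true → (w y).isSome = true → x < y → x + a ≤ y := by
      intro x y hx hy hxy
      obtain ⟨⟨ω, h1, h2⟩, -⟩ := loc x ((y - x).toNat + 1)
      exact h1.1 x y (by rw [h2 x le_rfl (by push_cast; omega), hx])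
        (by rw [h2 y hxy.le (by push_cast; omega), hy]) hxy
    constructor
    · intro t
      obtain ⟨⟨ω, h1, h2⟩, -⟩ := loc t (4 * a)
      obtain ⟨x, h3, h4, h5⟩ := h1.2 t
      exact ⟨x, h3, h4, by rw [← h2 x h3 h4, h5]⟩
    · intro x y c hx hy hxy
      obtain ⟨n, hn⟩ : ∃ n : ℕ, y = x + 1 + n := ⟨(y - x - 1).toNat, by omega⟩
      have h1 := (loc x (n + 1 + 1)).2
      rw [win, win_add, ← hn] at h1
      simp only [win, hx, hy, red_some, red_append] at h1
      have h2 : red (win (x + 1) n w) ≠ [] := by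
        intro h0
        rw [h0] at h1
        simp [red] at h1
      obtain ⟨d, hd⟩ := List.exists_mem_of_ne_nil _ h2
      unfold red at hd
      rw [List.mem_filterMap] at hd
      obtain ⟨e, he, hed⟩ := hd
      obtain ⟨z, h3, h4, h5⟩ := mem_win w e n _ he
      have hz : (w z).isSome = true := by
        rw [h5]
        simp only [id] at hed
        rw [hed]; rfl
      have h6 := sep x z (by rw [hx]; rfl) hz (by omega)
      have h7 := sep z y hz (by rw [hy]; rfl) (by omega)
      push_cast
      omega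

def sel (R : ℕ) (w : ℤ → O) : ℕ → ℤ → Prop
  | 0, _ => False
  | c + 1, x => sel R w c x ∨
      ((∃ k : Fin 4, (k : ℕ) = c ∧ w x = some k) ∧ ∀ y : ℤ, |y - x| < R → ¬ sel R w c y)

theorem sel_shift (R : ℕ) (w : ℤ → O) (t : ℤ) (c : ℕ) : ∀ x,
    sel R (shift t w) c x ↔ sel R w c (x + t) := by
  induction c with
  | zero => intro x; rfl
  | succ c ih =>
    intro x
    simp only [sel, ih, shift]
    refine or_congr Iff.rfl (and_congr Iff.rfl ⟨fun h y hy => ?_, fun h y hy => ?_⟩)
    · have := h (y - t) (by rwa [show y - t - x = y - (x + t) by ring])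
      rwa [sub_add_cancel] at this
    · exact h (y + t) (by rwa [show y + t - (x + t) = y - x by ring])

theorem sel_local (R : ℕ) (w w' : ℤ → O) (c : ℕ) : ∀ x : ℤ,
    (∀ y : ℤ, x - c * R ≤ y → y ≤ x + c * R → w y = w' y) → (sel R w c x ↔ sel R w' c x) := by
  induction c with
  | zero => intro x _; rfl
  | succ c ih =>
    intro x hx
    have hR0 : (0 : ℤ) ≤ R := Int.natCast_nonneg R
    have hcR : (0 : ℤ) ≤ c * R := by positivity
    have e : ((c + 1 : ℕ) : ℤ) * R = c * R + R := by push_cast; ring
    rw [e] at hx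
    simp only [sel]
    rw [ih x (fun y h1 h2 => hx y (by omega) (by omega)), hx x (by omega) (by omega)]
    refine or_congr Iff.rfl (and_congr Iff.rfl (forall_congr' fun y => forall_congr' fun hy => ?_))
    rw [abs_lt] at hy
    rw [ih y (fun z h1 h2 => hx z (by omega) (by omega))]

theorem sel_mono (R : ℕ) (w : ℤ → O) (x : ℤ) {c d : ℕ} (hcd : c ≤ d) (hx : sel R w c x) :
    sel R w d x := by
  induction hcd with
  | refl => exact hx
  | step _ ih => exact Or.inl ih

theorem sel_sep {a : ℕ} {w : ℤ → O} (hw : Marked a w) (c : ℕ) : ∀ x y : ℤ,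
    sel (2 * a) w c x → sel (2 * a) w c y → x < y → x + (2 * a : ℕ) ≤ y := by
  induction c with
  | zero => intro x y hx; exact hx.elim
  | succ c ih =>
    intro x y hx hy hxy
    by_contra hlt
    rcases hx with hx | ⟨⟨k, hk, hx⟩, hx'⟩ <;> rcases hy with hy | ⟨⟨k', hk', hy⟩, hy'⟩
    · exact hlt (ih x y hx hy hxy)
    · exact hy' x (by rw [abs_lt]; omega) hx
    · exact hx' y (by rw [abs_lt]; omega) hy
    · have : k = k' := Fin.ext (hk.trans hk'.symm)
      subst this
      exact hlt (hw.2 x y k hx hy hxy)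

open Classical in
noncomputable def blk (R : ℕ) (w : ℤ → O) : ℤ → Bool := fun x => decide (sel R w 4 x)

theorem blk_net {a : ℕ} (ha : 0 < a) {w : ℤ → O} (hw : Marked a w) :
    Net (2 * a) (4 * (2 * a)) (blk (2 * a) w) := by
  constructor
  · intro x y hx hy hxy
    simp only [blk, decide_eq_true_eq] at hx hy
    exact sel_sep hw 4 x y hx hy hxy
  · intro t
    obtain ⟨y, h1, h2, h3⟩ := hw.1 (t + 2 * a)
    obtain ⟨k, hk⟩ := Option.isSome_iff_exists.mp h3
    simp only [blk, decide_eq_true_eq]
    push_cast at h2 ⊢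
    by_cases hc : ∀ z : ℤ, |z - y| < (2 * a : ℕ) → ¬ sel (2 * a) w k z
    · exact ⟨y, by omega, by omega,
        sel_mono _ _ _ (show (k : ℕ) + 1 ≤ 4 from k.2) (Or.inr ⟨⟨k, rfl, hk⟩, hc⟩)⟩
    · push Not at hc
      obtain ⟨z, h4, h5⟩ := hc
      rw [abs_lt] at h4
      push_cast at h4
      exact ⟨z, by omega, by omega, sel_mono _ _ _ k.2.le h5⟩

theorem blk_local (R : ℕ) (w w' : ℤ → O) (x : ℤ)
    (hx : ∀ y : ℤ, x - 4 * R ≤ y → y ≤ x + 4 * R → w y = w' y) : blk R w x = blk R w' x := by
  unfold blk
  rw [decide_eq_decide]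
  exact sel_local R w w' 4 x hx

theorem blk_meas (R : ℕ) : Measurable (blk R) := by
  refine measurable_pi_lambda _ fun x => measurable_to_countable' fun b => ?_
  refine dep_meas (s := Finset.Icc (x - 4 * R) (x + 4 * R)) ?_
  intro w w' hw hb
  simp only [mem_preimage, mem_singleton_iff] at hb ⊢
  rw [← blk_local R w w' x (fun y h1 h2 => hw y (by simp [h1, h2])), hb]

theorem blk_dep (R : ℕ) {S : Set (ℤ → Bool)} {s : Finset ℤ} (hS : DepOn S (s : Set ℤ)) :
    DepOn (blk R ⁻¹' S)
      ((s.biUnion fun x => Finset.Icc (x - 4 * R) (x + 4 * R) : Finset ℤ) : Set ℤ) := by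
  intro w w' hw
  apply hS
  intro x hx
  refine blk_local R w w' x fun y h1 h2 => hw y ?_
  simp only [Finset.coe_biUnion, mem_iUnion, Finset.coe_Icc, mem_Icc]
  exact ⟨x, hx, h1, h2⟩

theorem meas_Net (a b : ℕ) : MeasurableSet {ω : ℤ → Bool | Net a b ω} := by
  unfold Net
  have hm : ∀ x : ℤ, Measurable (fun ω : ℤ → Bool => ω x = true) := fun x =>
    (measurable_of_countable (fun b : Bool => b = true)).comp (measurable_pi_apply x)
  rw [← measurable_mem]
  refine Measurable.and (Measurable.forall fun x => Measurable.forall fun y => ?_)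
    (Measurable.forall fun t => Measurable.exists fun x => ?_)
  · exact (hm x).imp ((hm y).imp measurable_const)
  · exact measurable_const.and (measurable_const.and (hm x))

theorem step {μ : Measure (ℤ → Bool)} {a : ℕ} (ha : 0 < a) (hμ : Good μ a) :
    ∃ ν : Measure (ℤ → Bool), Good ν (2 * a) := by
  obtain ⟨μ', hp, hs, hd, hm⟩ := mark hμ
  have mb := blk_meas (2 * a)
  refine ⟨μ'.map (blk (2 * a)), Measure.isProbabilityMeasure_map mb.aemeasurable, ?_, ?_, ?_⟩
  · intro t
    refine ⟨meas_shift t, ?_⟩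
    have e : shift t ∘ blk (2 * a) = blk (2 * a) ∘ shift t := by
      funext w x
      simp only [Function.comp, shift, blk]
      rw [decide_eq_decide]
      exact (sel_shift _ w t 4 x).symm
    rw [Measure.map_map (meas_shift t) mb, e, ← Measure.map_map mb (meas_shift t), (hs t).map_eq]
  · intro j s t S T h1 h2 dS dT
    rw [Measure.map_apply mb (dep_meas dS), Measure.map_apply mb (dep_meas dT),
      Measure.map_apply mb ((dep_meas dS).inter (dep_meas dT)), preimage_inter]
    refine hd (j + 8 * a) _ _ _ _ ?_ ?_ (blk_dep _ dS) (blk_dep _ dT)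
    · intro y hy
      simp only [Finset.mem_biUnion, Finset.mem_Icc] at hy
      obtain ⟨x, h3, h4, h5⟩ := hy
      have := h1 x h3
      push_cast at *
      omega
    · intro y hy
      simp only [Finset.mem_biUnion, Finset.mem_Icc] at hy
      obtain ⟨x, h3, h4, h5⟩ := hy
      have := h2 x h3
      push_cast at *
      omega
  · rw [ae_map_iff mb.aemeasurable (meas_Net _ _)]
    filter_upwards [hm] with w hw using blk_net ha hw

theorem base : Good (Measure.dirac (fun _ : ℤ => true)) 1 := by
  refine ⟨inferInstance, fun t => ⟨meas_shift t, ?_⟩, ?_, ?_⟩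
  · rw [Measure.map_dirac' (meas_shift t)]
    rfl
  · intro j s t S T _ _ dS dT
    rw [Measure.dirac_apply' _ (dep_meas dS), Measure.dirac_apply' _ (dep_meas dT),
      Measure.dirac_apply' _ ((dep_meas dS).inter (dep_meas dT)), Set.inter_indicator_one]
    rfl
  · rw [ae_dirac_iff (meas_Net _ _)]
    exact ⟨fun x y _ _ h => by push_cast; omega, fun t => ⟨t, le_rfl, by push_cast; omega, rfl⟩⟩

theorem exists_good (N : ℕ) : ∃ μ : Measure (ℤ → Bool), Good μ (2 ^ N) := by
  induction N with
  | zero => exact ⟨_, base⟩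
  | succ N ih =>
    obtain ⟨μ, hμ⟩ := ih
    rw [pow_succ']
    exact step (by positivity) hμ

end Pool.Agent.H444Z.PP
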